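import Pool.Agent.Q35.TT.Stm2

/-!
# From the affine charts to the projective surface (job MZP of project TT of helper35)
-/

set_option autoImplicit false
set_option linter.unusedSectionVars false

open MvPolynomial Pool.Agent.Q35.TT

namespace Pool.Agent.Q299.TT.MZP

section rev

variable {R : Type} [CommRing R]

/-- The coefficients after the exchange of the coordinates of the first factor. -/
def op1 (c : Fin 5 → Fin 5 → R) : Fin 5 → Fin 5 → R := fun i j => c (Fin.rev i) j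

/-- The coefficients after the exchange of the coordinates of the second factor. -/
def op2 (c : Fin 5 → Fin 5 → R) : Fin 5 → Fin 5 → R := fun i j => c i (Fin.rev j)

/-- The exchange of the coordinates. -/
def rv (x : Fin 2 → R) : Fin 2 → R := fun i => x (Fin.rev i)

omit [CommRing R] in
lemma rv_rv (x : Fin 2 → R) : rv (rv x) = x := by
  funext i
  simp [rv]

lemma rv_ne {x : Fin 2 → R} (h : x ≠ 0) : rv x ≠ 0 := by
  intro h0
  apply h
  have := congrArg rv h0
  rw [rv_rv] at this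
  rw [this]
  funext i
  simp [rv]

lemma rv_smul (a : R) (x : Fin 2 → R) : rv (a • x) = a • rv x := by
  funext i
  simp [rv]

lemma r50 : Fin.rev (0 : Fin 5) = 4 := rfl
lemma r51 : Fin.rev (1 : Fin 5) = 3 := rfl
lemma r52 : Fin.rev (2 : Fin 5) = 2 := rfl
lemma r53 : Fin.rev (3 : Fin 5) = 1 := rfl
lemma r54 : Fin.rev (4 : Fin 5) = 0 := rfl
lemma r20 : Fin.rev (0 : Fin 2) = 1 := rfl
lemma r21 : Fin.rev (1 : Fin 2) = 0 := rfl

lemma bq_rev (a : Fin 5 → R) (x : Fin 2 → R) : bq (fun i => a (Fin.rev i)) x = bq a (rv x) := by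
  simp only [bq, rv, r50, r51, r52, r53, r54, r20, r21]
  ring

lemma bd_rev (a : Fin 5 → R) (x : Fin 2 → R) (k : Fin 2) :
    bd (fun i => a (Fin.rev i)) x k = bd a (rv x) (Fin.rev k) := by
  fin_cases k
  · simp only [bd, rv, r50, r51, r52, r53, r54, r20, r21, Fin.zero_eta, Matrix.cons_val_zero,
      Matrix.cons_val_one]
    ring
  · simp only [bd, rv, r50, r51, r52, r53, r54, r20, r21, Fin.mk_one, Matrix.cons_val_zero,
      Matrix.cons_val_one]
    ring

lemma cx_op1 (c : Fin 5 → Fin 5 → R) (y : Fin 2 → R) :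
    cx (op1 c) y = fun i => cx c y (Fin.rev i) := rfl

lemma cy_op1 (c : Fin 5 → Fin 5 → R) (x : Fin 2 → R) : cy (op1 c) x = cy c (rv x) := by
  funext j
  exact bq_rev (fun i => c i j) x

lemma cx_op2 (c : Fin 5 → Fin 5 → R) (y : Fin 2 → R) : cx (op2 c) y = cx c (rv y) := by
  funext i
  exact bq_rev (c i) y

lemma cy_op2 (c : Fin 5 → Fin 5 → R) (x : Fin 2 → R) :
    cy (op2 c) x = fun j => cy c x (Fin.rev j) := rfl

lemma F4_op1 (c : Fin 5 → Fin 5 → R) (x y : Fin 2 → R) : F4 (op1 c) x y = F4 c (rv x) y := by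
  unfold F4
  rw [cx_op1, bq_rev]

lemma F4_op2 (c : Fin 5 → Fin 5 → R) (x y : Fin 2 → R) : F4 (op2 c) x y = F4 c x (rv y) := by
  unfold F4
  rw [cx_op2]

lemma F4_smul (c : Fin 5 → Fin 5 → R) (a b : R) (x y : Fin 2 → R) :
    F4 c (a • x) (b • y) = a ^ 4 * b ^ 4 * F4 c x y := by
  simp only [F4, cx, bq, Pi.smul_apply, smul_eq_mul]
  ring

end rev

lemma smooth_op1 {K : Type} [Field K] {c : Fin 5 → Fin 5 → K} (h : Smooth c) :
    Smooth (op1 c) := by
  intro x y hx hy h1 h2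
  refine h (rv x) y (rv_ne hx) hy (fun k => ?_) (fun k => ?_)
  · have := h1 (Fin.rev k)
    have e : (cx (fun i j => algebraMap K (AlgebraicClosure K) (op1 c i j)) y) =
      fun i => cx (fun i j => algebraMap K (AlgebraicClosure K) (c i j)) y (Fin.rev i) := rfl
    rw [e, bd_rev, Fin.rev_rev] at this
    exact this
  · have := h2 k
    have e : (cy (fun i j => algebraMap K (AlgebraicClosure K) (op1 c i j)) x) =
      cy (fun i j => algebraMap K (AlgebraicClosure K) (c i j)) (rv x) :=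
      cy_op1 (fun i j => algebraMap K (AlgebraicClosure K) (c i j)) x
    rw [e] at this
    exact this

lemma smooth_op2 {K : Type} [Field K] {c : Fin 5 → Fin 5 → K} (h : Smooth c) :
    Smooth (op2 c) := by
  intro x y hx hy h1 h2
  refine h x (rv y) hx (rv_ne hy) (fun k => ?_) (fun k => ?_)
  · have := h1 k
    have e : (cx (fun i j => algebraMap K (AlgebraicClosure K) (op2 c i j)) y) =
      cx (fun i j => algebraMap K (AlgebraicClosure K) (c i j)) (rv y) :=
      cx_op2 (fun i j => algebraMap K (AlgebraicClosure K) (c i j)) y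
    rw [e] at this
    exact this
  · have := h2 (Fin.rev k)
    have e : (cy (fun i j => algebraMap K (AlgebraicClosure K) (op2 c i j)) x) =
      fun j => cy (fun i j => algebraMap K (AlgebraicClosure K) (c i j)) x (Fin.rev j) := rfl
    rw [e, bd_rev, Fin.rev_rev] at this
    exact this

/-! ### Substitution of the chart -/

section chart

variable {K : Type} [Field K]

/-- The coordinates `(a² b² w, a x, b y)`. -/
def pt {A : Type} [CommRing A] (a b W : A) (X Y : Fin 2 → A) : Option (Fin 2 ⊕ Fin 2) → A :=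
  fun o => o.elim (a ^ 2 * b ^ 2 * W) (Sum.elim (a • X) (b • Y))

/-- The substitution `(a² b² w, a, a s, b, b t)`. -/
noncomputable def Ph : MvPolynomial (Option (Fin 2 ⊕ Fin 2)) K →ₐ[K]
    MvPolynomial (Fin 2) (MvPolynomial (Fin 3) K) :=
  aeval (pt (X 0) (X 1) (C (X 0)) ![1, C (X 1)] ![1, C (X 2)])

lemma ph_eval (f : MvPolynomial (Option (Fin 2 ⊕ Fin 2)) K) (u : Fin 3 → K) (a b : K) :
    eval ![a, b] (MvPolynomial.map (eval u) (Ph f)) = eval (pt a b (u 0) ![1, u 1] ![1, u 2]) f := by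
  have h : ((eval ![a, b]).comp ((MvPolynomial.map (eval u)).comp
      (Ph (K := K) : _ →+* _))) = eval (pt a b (u 0) ![1, u 1] ![1, u 2]) := by
    apply MvPolynomial.ringHom_ext
    · intro r
      simp [Ph, MvPolynomial.algebraMap_eq, IsScalarTower.algebraMap_apply K (MvPolynomial (Fin 3) K)
        (MvPolynomial (Fin 2) (MvPolynomial (Fin 3) K))]
    · rintro (_ | i | j)
      · simp [Ph, pt]
      · fin_cases i <;> simp [Ph, pt]
      · fin_cases j <;> simp [Ph, pt]
  exact congrArg (fun g => g f) h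

lemma ph_iff [CharZero K] (f : MvPolynomial (Option (Fin 2 ⊕ Fin 2)) K) (u : Fin 3 → K) :
    (∀ a b : K, eval (pt a b (u 0) ![1, u 1] ![1, u 2]) f = 0) ↔
      ∀ k, eval u (coeff k (Ph f)) = 0 := by
  constructor
  · intro h
    have h0 : MvPolynomial.map (eval u) (Ph f) = 0 := by
      apply MvPolynomial.funext
      intro x
      have := ph_eval f u (x 0) (x 1)
      rw [h] at this
      have hx : x = ![x 0, x 1] := by
        funext i
        fin_cases i <;> rfl
      rw [hx, this]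
      simp
    intro k
    have := congrArg (coeff k) h0
    rw [coeff_map] at this
    simpa using this
  · intro h a b
    have h0 : MvPolynomial.map (eval u) (Ph f) = 0 := by
      ext k
      rw [coeff_map, h k]
      simp
    rw [← ph_eval, h0]
    simp

end chart

/-! ### Local ideals -/

section loc

/-- The affine coordinates. -/
noncomputable def af {F : Type} [Field F] (w : F) (x y : Fin 2 → F) : Fin 3 → F :=
  ![w / (x 0 ^ 2 * y 0 ^ 2), x 1 / x 0, y 1 / y 0]

lemma smul_one {F : Type} [Field F] {x : Fin 2 → F} (hx : x 0 ≠ 0) : x = x 0 • ![1, x 1 / x 0] := by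
  funext i
  fin_cases i
  · simp
  · simp
    field_simp

lemma F4_af {F : Type} [Field F] (c : Fin 5 → Fin 5 → F) (w : F) (x y : Fin 2 → F)
    (hx : x 0 ≠ 0) (hy : y 0 ≠ 0) :
    w ^ 2 = F4 c x y ↔ (af w x y 0) ^ 2 = F4 c ![1, af w x y 1] ![1, af w x y 2] := by
  have h1 : F4 c x y = x 0 ^ 4 * y 0 ^ 4 * F4 c ![1, x 1 / x 0] ![1, y 1 / y 0] := by
    rw [← F4_smul, ← smul_one hx, ← smul_one hy]
  have h2 : af w x y 0 = w / (x 0 ^ 2 * y 0 ^ 2) := rfl
  have h3 : af w x y 1 = x 1 / x 0 := rfl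
  have h4 : af w x y 2 = y 1 / y 0 := rfl
  rw [h1, h2, h3, h4, div_pow, div_eq_iff (by positivity)]
  constructor
  · intro h
    rw [h]
    ring
  · intro h
    rw [h]
    ring

lemma pt_af {F : Type} [Field F] (a b W : F) (X Y : Fin 2 → F) (hX : X 0 ≠ 0) (hY : Y 0 ≠ 0) :
    pt a b W X Y = pt (a * X 0) (b * Y 0) (af W X Y 0) ![1, af W X Y 1] ![1, af W X Y 2] := by
  funext o
  rcases o with _ | i | j
  · simp only [pt, af, Option.elim, Matrix.cons_val_zero]
    field_simp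
  · fin_cases i
    · simp [pt]
    · simp only [pt, af, Option.elim, Sum.elim_inl, Pi.smul_apply, smul_eq_mul, Fin.mk_one,
        Matrix.cons_val_one, Matrix.cons_val_zero]
      field_simp
  · fin_cases j
    · simp [pt]
    · simp only [pt, af, Option.elim, Sum.elim_inr, Pi.smul_apply, smul_eq_mul, Fin.mk_one,
        Matrix.cons_val_one, Matrix.cons_val_zero, Matrix.cons_val]
      field_simp

variable {K L : Type} [Field K] [CharZero K] [NontriviallyNormedField L]

lemma locP_iff (σ : K →+* L) (c : Fin 5 → Fin 5 → K) (w : L) (x y : Fin 2 → L) (hx : x 0 ≠ 0)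
    (hy : y 0 ≠ 0) (f : MvPolynomial (Option (Fin 2 ⊕ Fin 2)) K) :
    f ∈ locP σ c w x y ↔ ∀ k, coeff k (Ph f) ∈ locA σ c (af w x y) := by
  constructor
  · rintro ⟨U, hU, h⟩ k
    let m : (Fin 3 → L) → L × (Fin 2 → L) × (Fin 2 → L) := fun v =>
      (x 0 ^ 2 * y 0 ^ 2 * v 0, (fun i => x 0 * (![1, v 1] : Fin 2 → L) i),
        fun i => y 0 * (![1, v 2] : Fin 2 → L) i)
    have hm : Continuous m := by
      refine Continuous.prodMk (by fun_prop) (Continuous.prodMk ?_ ?_)
      · refine continuous_pi fun i => ?_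
        fin_cases i
        · simp
          exact continuous_const
        · simp
          fun_prop
      · refine continuous_pi fun i => ?_
        fin_cases i
        · simp
          exact continuous_const
        · simp
          fun_prop
    have hmp : m (af w x y) = (w, x, y) := by
      refine Prod.ext ?_ (Prod.ext ?_ ?_)
      · simp only [m, af, Matrix.cons_val_zero]
        field_simp
      · funext i
        fin_cases i
        · simp [m]
        · simp only [m, af, Fin.mk_one, Matrix.cons_val_one, Matrix.cons_val_zero]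
          field_simp
      · funext i
        fin_cases i
        · simp [m]
        · simp only [m, af, Fin.mk_one, Matrix.cons_val_one, Matrix.cons_val_zero,
            Matrix.cons_val]
          field_simp
    refine ⟨m ⁻¹' U, hm.continuousAt (by rw [hmp]; exact hU), fun u hu hU' => ?_⟩
    refine (ph_iff f u).1 (fun a b => ?_) k
    refine h (u 0) ![1, u 1] ![1, u 2] (fun h0 => ?_) (fun h0 => ?_) hu ⟨x 0, y 0, hx, hy, ?_⟩ a b
    · have := congrFun h0 0
      simp at this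
    · have := congrFun h0 0
      simp at this
    · have e : (x 0 ^ 2 * y 0 ^ 2 * σ (u 0), (fun i => x 0 * σ ((![1, u 1] : Fin 2 → K) i)),
          fun i => y 0 * σ ((![1, u 2] : Fin 2 → K) i)) = m (fun i => σ (u i)) := by
        refine Prod.ext rfl (Prod.ext ?_ ?_)
        · funext i
          fin_cases i <;> simp [m]
        · funext i
          fin_cases i <;> simp [m]
      rw [e]
      exact hU'
  · intro h
    choose U hU hU' using h
    have hV : (⋂ k ∈ (Ph f).support, U k) ∈ nhds (af w x y) :=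
      (Filter.biInter_finset_mem _).2 (fun k _ => hU k)
    have hn : ContinuousAt (fun z : L × (Fin 2 → L) × (Fin 2 → L) => af z.1 z.2.1 z.2.2)
        (w, x, y) := by
      refine continuousAt_pi.2 fun i => ?_
      fin_cases i
      · simp only [af, Fin.zero_eta, Matrix.cons_val_zero]
        refine ContinuousAt.div (by fun_prop) (by fun_prop) ?_
        exact mul_ne_zero (pow_ne_zero _ hx) (pow_ne_zero _ hy)
      · simp only [af, Fin.mk_one, Matrix.cons_val_one, Matrix.cons_val_zero]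
        exact ContinuousAt.div (by fun_prop) (by fun_prop) hx
      · simp only [af, Fin.reduceFinMk, Matrix.cons_val]
        exact ContinuousAt.div (by fun_prop) (by fun_prop) hy
    refine ⟨(fun z : L × (Fin 2 → L) × (Fin 2 → L) => af z.1 z.2.1 z.2.2) ⁻¹'
      (⋂ k ∈ (Ph f).support, U k) ∩ {z | z.2.1 0 ≠ 0 ∧ z.2.2 0 ≠ 0},
      Filter.inter_mem (hn hV) ?_, ?_⟩
    · refine IsOpen.mem_nhds ?_ ⟨hx, hy⟩
      refine IsOpen.inter ?_ ?_
      · exact isOpen_ne.preimage (f := fun z : L × (Fin 2 → L) × (Fin 2 → L) => z.2.1 0)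
          (by fun_prop)
      · exact isOpen_ne.preimage (f := fun z : L × (Fin 2 → L) × (Fin 2 → L) => z.2.2 0)
          (by fun_prop)
    · rintro W X Y hX hY hW ⟨a', b', ha', hb', hz1, hz2, hz3⟩ a b
      have hX0 : X 0 ≠ 0 := by
        intro h0
        apply hz2
        simp [h0]
      have hY0 : Y 0 ≠ 0 := by
        intro h0
        apply hz3
        simp [h0]
      have hu : (af W X Y 0) ^ 2 = F4 c ![1, af W X Y 1] ![1, af W X Y 2] :=
        (F4_af c W X Y hX0 hY0).1 hW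
      have hσX : σ (X 0) ≠ 0 := by simpa using hX0
      have hσY : σ (Y 0) ≠ 0 := by simpa using hY0
      have hσ : (fun i => σ (af W X Y i)) ∈ (⋂ k ∈ (Ph f).support, U k) := by
        have : (fun i => σ (af W X Y i)) =
            af (a' ^ 2 * b' ^ 2 * σ W) (fun i => a' * σ (X i)) fun i => b' * σ (Y i) := by
          funext i
          fin_cases i
          · simp only [af, Fin.zero_eta, Matrix.cons_val_zero, map_div₀, map_mul, map_pow]
            field_simp
          · simp only [af, Fin.mk_one, Matrix.cons_val_one, Matrix.cons_val_zero, map_div₀]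
            field_simp
          · simp only [af, Fin.reduceFinMk, Matrix.cons_val, map_div₀]
            field_simp
        rw [this]
        exact hz1
      have hk : ∀ k, eval (af W X Y) (coeff k (Ph f)) = 0 := by
        intro k
        by_cases hk : k ∈ (Ph f).support
        · exact hU' k (af W X Y) hu (Set.mem_iInter₂.1 hσ k hk)
        · rw [MvPolynomial.notMem_support_iff.1 hk]
          simp
      have := (ph_iff f (af W X Y)).2 hk (a * X 0) (b * Y 0)
      rw [← pt_af a b W X Y hX0 hY0] at this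
      exact this

/-! ### Exchange of the coordinates -/

/-- The exchange of the coordinates of the first factor. -/
def r1 : Option (Fin 2 ⊕ Fin 2) → Option (Fin 2 ⊕ Fin 2) :=
  fun o => o.elim none (Sum.elim (fun i => some (Sum.inl (Fin.rev i))) fun j => some (Sum.inr j))

/-- The exchange of the coordinates of the second factor. -/
def r2 : Option (Fin 2 ⊕ Fin 2) → Option (Fin 2 ⊕ Fin 2) :=
  fun o => o.elim none (Sum.elim (fun i => some (Sum.inl i)) fun j => some (Sum.inr (Fin.rev j)))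

lemma pt_r1 {A : Type} [CommRing A] (a b W : A) (X Y : Fin 2 → A) :
    pt a b W X Y ∘ r1 = pt a b W (rv X) Y := by
  funext o
  rcases o with _ | i | j <;> rfl

lemma pt_r2 {A : Type} [CommRing A] (a b W : A) (X Y : Fin 2 → A) :
    pt a b W X Y ∘ r2 = pt a b W X (rv Y) := by
  funext o
  rcases o with _ | i | j <;> rfl

lemma r1_r1 (f : MvPolynomial (Option (Fin 2 ⊕ Fin 2)) K) : rename r1 (rename r1 f) = f := by
  rw [rename_rename]
  have : r1 ∘ r1 = id := by
    funext o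
    rcases o with _ | i | j
    · rfl
    · simp [r1]
    · rfl
  rw [this, rename_id_apply]

lemma r2_r2 (f : MvPolynomial (Option (Fin 2 ⊕ Fin 2)) K) : rename r2 (rename r2 f) = f := by
  rw [rename_rename]
  have : r2 ∘ r2 = id := by
    funext o
    rcases o with _ | i | j
    · rfl
    · rfl
    · simp [r2]
  rw [this, rename_id_apply]

lemma op1_op1 (c : Fin 5 → Fin 5 → K) : op1 (op1 c) = c := by
  funext i j
  simp [op1]

lemma op2_op2 (c : Fin 5 → Fin 5 → K) : op2 (op2 c) = c := by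
  funext i j
  simp [op2]

lemma loc_op1' (σ : K →+* L) (c : Fin 5 → Fin 5 → K) (w : L) (x y : Fin 2 → L)
    (f : MvPolynomial (Option (Fin 2 ⊕ Fin 2)) K) (hf : f ∈ locP σ c w x y) :
    rename r1 f ∈ locP σ (op1 c) w (rv x) y := by
  obtain ⟨U, hU, h⟩ := hf
  have hn : Continuous (fun z : L × (Fin 2 → L) × (Fin 2 → L) => (z.1, rv z.2.1, z.2.2)) := by
    refine Continuous.prodMk (by fun_prop) (Continuous.prodMk ?_ (by fun_prop))
    refine continuous_pi fun i => ?_
    simp only [rv]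
    fun_prop
  refine ⟨(fun z : L × (Fin 2 → L) × (Fin 2 → L) => (z.1, rv z.2.1, z.2.2)) ⁻¹' U,
    hn.continuousAt (by simpa only [rv_rv] using hU), ?_⟩
  rintro W X Y hX hY hW ⟨a', b', ha', hb', hz⟩ a b
  rw [F4_op1] at hW
  have := h W (rv X) Y (rv_ne hX) hY hW ⟨a', b', ha', hb', hz⟩ a b
  have e : eval (pt a b W X Y) (rename r1 f) = eval (pt a b W (rv X) Y) f := by
    rw [eval_rename, pt_r1]
  exact e.trans this

lemma loc_op2' (σ : K →+* L) (c : Fin 5 → Fin 5 → K) (w : L) (x y : Fin 2 → L)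
    (f : MvPolynomial (Option (Fin 2 ⊕ Fin 2)) K) (hf : f ∈ locP σ c w x y) :
    rename r2 f ∈ locP σ (op2 c) w x (rv y) := by
  obtain ⟨U, hU, h⟩ := hf
  have hn : Continuous (fun z : L × (Fin 2 → L) × (Fin 2 → L) => (z.1, z.2.1, rv z.2.2)) := by
    refine Continuous.prodMk (by fun_prop) (Continuous.prodMk (by fun_prop) ?_)
    refine continuous_pi fun i => ?_
    simp only [rv]
    fun_prop
  refine ⟨(fun z : L × (Fin 2 → L) × (Fin 2 → L) => (z.1, z.2.1, rv z.2.2)) ⁻¹' U,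
    hn.continuousAt (by simpa only [rv_rv] using hU), ?_⟩
  rintro W X Y hX hY hW ⟨a', b', ha', hb', hz⟩ a b
  rw [F4_op2] at hW
  have := h W X (rv Y) hX (rv_ne hY) hW ⟨a', b', ha', hb', hz⟩ a b
  have e : eval (pt a b W X Y) (rename r2 f) = eval (pt a b W X (rv Y)) f := by
    rw [eval_rename, pt_r2]
  exact e.trans this

lemma loc_op1 (σ : K →+* L) (c : Fin 5 → Fin 5 → K) (w : L) (x y : Fin 2 → L)
    (f : MvPolynomial (Option (Fin 2 ⊕ Fin 2)) K) :
    f ∈ locP σ c w x y ↔ rename r1 f ∈ locP σ (op1 c) w (rv x) y := by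
  constructor
  · exact loc_op1' σ c w x y f
  · intro h
    have := loc_op1' σ (op1 c) w (rv x) y _ h
    rwa [r1_r1, op1_op1, rv_rv] at this

lemma loc_op2 (σ : K →+* L) (c : Fin 5 → Fin 5 → K) (w : L) (x y : Fin 2 → L)
    (f : MvPolynomial (Option (Fin 2 ⊕ Fin 2)) K) :
    f ∈ locP σ c w x y ↔ rename r2 f ∈ locP σ (op2 c) w x (rv y) := by
  constructor
  · exact loc_op2' σ c w x y f
  · intro h
    have := loc_op2' σ (op2 c) w x (rv y) _ h
    rwa [r2_r2, op2_op2, rv_rv] at this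

/-! ### Finiteness -/

/-- The local ideals in a chart. -/
def G (σ : K →+* L) (c : Fin 5 → Fin 5 → K) (Q : L → Prop) (i j : Fin 2) :
    Set (Set (MvPolynomial (Option (Fin 2 ⊕ Fin 2)) K)) :=
  {J | ∃ (w : L) (x y : Fin 2 → L), Q w ∧ x i ≠ 0 ∧ y j ≠ 0 ∧
    w ^ 2 = F4 (fun i j => σ (c i j)) x y ∧ J = locP σ c w x y}

lemma G_op1 (σ : K →+* L) (c : Fin 5 → Fin 5 → K) (Q : L → Prop) (j : Fin 2)
    (h : (G σ (op1 c) Q 0 j).Finite) : (G σ c Q 1 j).Finite := by
  refine (h.image (fun J => {f | rename r1 f ∈ J})).subset ?_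
  rintro J ⟨w, x, y, hQ, hx, hy, hs, rfl⟩
  refine ⟨locP σ (op1 c) w (rv x) y, ⟨w, rv x, y, hQ, hx, hy, ?_, rfl⟩,
    Set.ext fun f => (loc_op1 σ c w x y f).symm⟩
  have : F4 (fun i j => σ (op1 c i j)) (rv x) y = F4 (fun i j => σ (c i j)) (rv (rv x)) y :=
    F4_op1 (fun i j => σ (c i j)) (rv x) y
  rw [this, rv_rv]
  exact hs

lemma G_op2 (σ : K →+* L) (c : Fin 5 → Fin 5 → K) (Q : L → Prop) (i : Fin 2)
    (h : (G σ (op2 c) Q i 0).Finite) : (G σ c Q i 1).Finite := by
  refine (h.image (fun J => {f | rename r2 f ∈ J})).subset ?_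
  rintro J ⟨w, x, y, hQ, hx, hy, hs, rfl⟩
  refine ⟨locP σ (op2 c) w x (rv y), ⟨w, x, rv y, hQ, hx, hy, ?_, rfl⟩,
    Set.ext fun f => (loc_op2 σ c w x y f).symm⟩
  have : F4 (fun i j => σ (op2 c i j)) x (rv y) = F4 (fun i j => σ (c i j)) x (rv (rv y)) :=
    F4_op2 (fun i j => σ (c i j)) x (rv y)
  rw [this, rv_rv]
  exact hs

lemma G00 (σ : K →+* L) (c : Fin 5 → Fin 5 → K) (Q : L → Prop)
    (hQ : ∀ w a : L, a ≠ 0 → Q w → Q (w / a))
    (h : {J | ∃ x : Fin 3 → L, Q (x 0) ∧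
      x 0 ^ 2 = F4 (fun i j => σ (c i j)) ![1, x 1] ![1, x 2] ∧ J = locA σ c x}.Finite) :
    (G σ c Q 0 0).Finite := by
  refine (h.image (fun J => {f | ∀ k, coeff k (Ph f) ∈ J})).subset ?_
  rintro J ⟨w, x, y, hw, hx, hy, hs, rfl⟩
  refine ⟨locA σ c (af w x y), ⟨af w x y, ?_, ?_, rfl⟩,
    Set.ext fun f => (locP_iff σ c w x y hx hy f).symm⟩
  · exact hQ _ _ (mul_ne_zero (pow_ne_zero _ hx) (pow_ne_zero _ hy)) hw
  · exact (F4_af (fun i j => σ (c i j)) w x y hx hy).1 hs

lemma ex_ne {F : Type} [Field F] {x : Fin 2 → F} (hx : x ≠ 0) : x 0 ≠ 0 ∨ x 1 ≠ 0 := by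
  by_contra h
  push Not at h
  apply hx
  funext i
  fin_cases i
  · exact h.1
  · exact h.2

lemma Gall (σ : K →+* L) (c : Fin 5 → Fin 5 → K) (Q : L → Prop)
    (h00 : (G σ c Q 0 0).Finite) (h10 : (G σ (op1 c) Q 0 0).Finite)
    (h01 : (G σ (op2 c) Q 0 0).Finite) (h11 : (G σ (op2 (op1 c)) Q 0 0).Finite) :
    {J | ∃ (w : L) (x y : Fin 2 → L), Q w ∧ x ≠ 0 ∧ y ≠ 0 ∧
      w ^ 2 = F4 (fun i j => σ (c i j)) x y ∧ J = locP σ c w x y}.Finite := by
  have e10 : (G σ c Q 1 0).Finite := G_op1 σ c Q 0 h10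
  have e01 : (G σ c Q 0 1).Finite := G_op2 σ c Q 0 h01
  have e11 : (G σ c Q 1 1).Finite := G_op1 σ c Q 1 (G_op2 σ (op1 c) Q 0 h11)
  refine (((h00.union e10).union e01).union e11).subset ?_
  rintro J ⟨w, x, y, hw, hx, hy, hs, rfl⟩
  rcases ex_ne hx with hx | hx <;> rcases ex_ne hy with hy | hy
  · exact Or.inl (Or.inl (Or.inl ⟨w, x, y, hw, hx, hy, hs, rfl⟩))
  · exact Or.inl (Or.inr ⟨w, x, y, hw, hx, hy, hs, rfl⟩)
  · exact Or.inl (Or.inl (Or.inr ⟨w, x, y, hw, hx, hy, hs, rfl⟩))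
  · exact Or.inr ⟨w, x, y, hw, hx, hy, hs, rfl⟩

end loc

/-! ### Finitely many rational points of the branch curve -/

section fb

variable {K : Type} [Field K]

/-- The branch curve has only finitely many rational points. -/
def FB (c : Fin 5 → Fin 5 → K) : Prop :=
  ∃ B : Finset ((Fin 2 → K) × (Fin 2 → K)), ∀ X Y : Fin 2 → K, X ≠ 0 → Y ≠ 0 →
    F4 c X Y = 0 → ∃ e ∈ B, ∃ a b : K, X = a • e.1 ∧ Y = b • e.2

lemma fb_op1 {c : Fin 5 → Fin 5 → K} (h : FB c) : FB (op1 c) := by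
  classical
  obtain ⟨B, hB⟩ := h
  refine ⟨B.image (fun e => (rv e.1, e.2)), fun X Y hX hY h0 => ?_⟩
  rw [F4_op1] at h0
  obtain ⟨e, he, a, b, h1, h2⟩ := hB (rv X) Y (rv_ne hX) hY h0
  refine ⟨_, Finset.mem_image_of_mem _ he, a, b, ?_, h2⟩
  rw [← rv_smul, ← h1, rv_rv]

lemma fb_op2 {c : Fin 5 → Fin 5 → K} (h : FB c) : FB (op2 c) := by
  classical
  obtain ⟨B, hB⟩ := h
  refine ⟨B.image (fun e => (e.1, rv e.2)), fun X Y hX hY h0 => ?_⟩
  rw [F4_op2] at h0
  obtain ⟨e, he, a, b, h1, h2⟩ := hB X (rv Y) hX (rv_ne hY) h0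
  refine ⟨_, Finset.mem_image_of_mem _ he, a, b, h1, ?_⟩
  rw [← rv_smul, ← h2, rv_rv]

lemma vec_ne (s : K) : (![1, s] : Fin 2 → K) ≠ 0 := by
  intro h
  have := congrFun h 0
  simp at this

lemma ratio_eq {s a : K} {e : Fin 2 → K} (h : (![1, s] : Fin 2 → K) = a • e) :
    s = e 1 / e 0 := by
  have h0 := congrFun h 0
  have h1 := congrFun h 1
  simp at h0 h1
  have ha : a ≠ 0 := by
    rintro rfl
    simp at h0
  have he : e 0 ≠ 0 := by
    intro h2
    rw [h2] at h0
    simp at h0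
  rw [eq_div_iff he, h1]
  calc a * e 1 * e 0 = (a * e 0) * e 1 := by ring
    _ = e 1 := by rw [← h0, one_mul]

lemma fb_fin {c : Fin 5 → Fin 5 → K} (h : FB c) :
    {z : K × K | F4 c ![1, z.1] ![1, z.2] = 0}.Finite := by
  obtain ⟨B, hB⟩ := h
  refine ((B : Set ((Fin 2 → K) × (Fin 2 → K))).toFinite.image
    (fun e => (e.1 1 / e.1 0, e.2 1 / e.2 0))).subset ?_
  rintro ⟨s, t⟩ hz
  obtain ⟨e, he, a, b, h1, h2⟩ := hB _ _ (vec_ne s) (vec_ne t) hz
  exact ⟨e, he, Prod.ext (ratio_eq h1).symm (ratio_eq h2).symm⟩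

end fb

/-! ### The local closures at the rational points -/

section van

variable {K : Type} [Field K] [CharZero K]

/-- The vanishing on the rational points in a chart. -/
def VAN (c : Fin 5 → Fin 5 → K) (i j : Fin 2) (E₁ E₂ : Set (Fin 2 → K))
    (T : Set ((Fin 2 → K) × (Fin 2 → K))) : Prop :=
  ∀ (L : Type) [NontriviallyNormedField L] [CompleteSpace L] (σ : K →+* L), DenseRange σ →
    ∀ (W : K) (X Y : Fin 2 → K), X ≠ 0 → Y ≠ 0 → W ≠ 0 → W ^ 2 = F4 c X Y →
      (∀ e ∈ E₁, ∀ a : K, X ≠ a • e) → (∀ e ∈ E₂, ∀ a : K, Y ≠ a • e) →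
      (∀ e ∈ T, ∀ a b : K, X ≠ a • e.1 ∨ Y ≠ b • e.2) →
      ∀ f ∈ locP σ c (σ W) (fun i => σ (X i)) (fun i => σ (Y i)),
        ∀ (W' : K) (X' Y' : Fin 2 → K), X' i ≠ 0 → Y' j ≠ 0 → W' ^ 2 = F4 c X' Y' →
          ∀ a b : K, eval (pt a b W' X' Y') f = 0

lemma van_mono {c : Fin 5 → Fin 5 → K} {i j : Fin 2} {E₁ E₂ F₁ F₂ : Set (Fin 2 → K)}
    {T U : Set ((Fin 2 → K) × (Fin 2 → K))} (h : VAN c i j E₁ E₂ T) (h1 : E₁ ⊆ F₁) (h2 : E₂ ⊆ F₂)
    (h3 : T ⊆ U) : VAN c i j F₁ F₂ U := by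
  intro L _ _ σ hσ W X Y hX hY hW hs g1 g2 g3
  exact h L σ hσ W X Y hX hY hW hs (fun e he => g1 e (h1 he)) (fun e he => g2 e (h2 he))
    (fun e he => g3 e (h3 he))

lemma van_op1 {c : Fin 5 → Fin 5 → K} {j : Fin 2} {E₁ E₂ : Set (Fin 2 → K)}
    {T : Set ((Fin 2 → K) × (Fin 2 → K))} (h : VAN (op1 c) 0 j E₁ E₂ T) :
    VAN c 1 j (rv '' E₁) E₂ ((fun e => (rv e.1, e.2)) '' T) := by
  intro L _ _ σ hσ W X Y hX hY hW hs g1 g2 g3 f hf W' X' Y' hX' hY' hs' a b
  have key : ∀ (Z : Fin 2 → K) (e : Fin 2 → K) (a : K), rv Z = a • e → Z = a • rv e := by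
    intro Z e a he
    rw [← rv_smul, ← he, rv_rv]
  have := h L σ hσ W (rv X) Y (rv_ne hX) hY hW (by rw [F4_op1, rv_rv]; exact hs)
    (fun e he a ha => g1 (rv e) ⟨e, he, rfl⟩ a (key X e a ha)) g2
    (fun e he a b => ?_) (rename r1 f) ((loc_op1 σ c _ _ _ f).1 hf) W' (rv X') Y' hX' hY'
    (by rw [F4_op1, rv_rv]; exact hs') a b
  · rw [eval_rename, pt_r1, rv_rv] at this
    exact this
  · rcases g3 _ ⟨e, he, rfl⟩ a b with g | g
    · exact Or.inl fun ha => g (key X e.1 a ha)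
    · exact Or.inr g

lemma van_op2 {c : Fin 5 → Fin 5 → K} {i : Fin 2} {E₁ E₂ : Set (Fin 2 → K)}
    {T : Set ((Fin 2 → K) × (Fin 2 → K))} (h : VAN (op2 c) i 0 E₁ E₂ T) :
    VAN c i 1 E₁ (rv '' E₂) ((fun e => (e.1, rv e.2)) '' T) := by
  intro L _ _ σ hσ W X Y hX hY hW hs g1 g2 g3 f hf W' X' Y' hX' hY' hs' a b
  have key : ∀ (Z : Fin 2 → K) (e : Fin 2 → K) (a : K), rv Z = a • e → Z = a • rv e := by
    intro Z e a he
    rw [← rv_smul, ← he, rv_rv]
  have := h L σ hσ W X (rv Y) hX (rv_ne hY) hW (by rw [F4_op2, rv_rv]; exact hs) g1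
    (fun e he a ha => g2 (rv e) ⟨e, he, rfl⟩ a (key Y e a ha))
    (fun e he a b => ?_) (rename r2 f) ((loc_op2 σ c _ _ _ f).1 hf) W' X' (rv Y') hX' hY'
    (by rw [F4_op2, rv_rv]; exact hs') a b
  · rw [eval_rename, pt_r2, rv_rv] at this
    exact this
  · rcases g3 _ ⟨e, he, rfl⟩ a b with g | g
    · exact Or.inl g
    · exact Or.inr fun ha => g (key Y e.2 b ha)

lemma first_ne {X : Fin 2 → K} (h : ∀ a : K, X ≠ a • ![0, 1]) : X 0 ≠ 0 := by
  intro h0
  apply h (X 1)
  funext i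
  fin_cases i
  · simp [h0]
  · simp

/-- The good points in the chart `(0, 0)`. -/
lemma van00 {c : Fin 5 → Fin 5 → K} {E₁ E₂ : Set K} {T : Set (K × K)}
    (h : ∀ (L : Type) [NontriviallyNormedField L] [CompleteSpace L] (σ : K →+* L), DenseRange σ →
      ∀ u : Fin 3 → K, u 0 ≠ 0 → u 0 ^ 2 = F4 c ![1, u 1] ![1, u 2] → u 1 ∉ E₁ → u 2 ∉ E₂ →
        (u 1, u 2) ∉ T → ∀ f ∈ locA σ c (fun i => σ (u i)), ∀ u' : Fin 3 → K,
          u' 0 ^ 2 = F4 c ![1, u' 1] ![1, u' 2] → eval u' f = 0) :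
    VAN c 0 0 ((fun s => ![1, s]) '' E₁ ∪ {![0, 1]}) ((fun s => ![1, s]) '' E₂ ∪ {![0, 1]})
      ((fun z => (![1, z.1], ![1, z.2])) '' T) := by
  intro L _ _ σ hσ W X Y hX hY hW hs g1 g2 g3 f hf W' X' Y' hX' hY' hs' a b
  have hX0 : X 0 ≠ 0 := first_ne (g1 _ (Or.inr rfl))
  have hY0 : Y 0 ≠ 0 := first_ne (g2 _ (Or.inr rfl))
  have u0 : af W X Y 0 ≠ 0 :=
    div_ne_zero hW (mul_ne_zero (pow_ne_zero _ hX0) (pow_ne_zero _ hY0))
  have hσX : σ (X 0) ≠ 0 := by simpa using hX0
  have hσY : σ (Y 0) ≠ 0 := by simpa using hY0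
  have e : af (σ W) (fun i => σ (X i)) (fun i => σ (Y i)) = fun i => σ (af W X Y i) := by
    funext i
    fin_cases i
    · simp only [af, Fin.zero_eta, Matrix.cons_val_zero, map_div₀, map_mul, map_pow]
    · simp only [af, Fin.mk_one, Matrix.cons_val_one, Matrix.cons_val_zero, map_div₀]
    · simp only [af, Fin.reduceFinMk, Matrix.cons_val, map_div₀]
  have hk := (locP_iff σ c (σ W) (fun i => σ (X i)) (fun i => σ (Y i)) hσX hσY f).1 hf
  rw [e] at hk
  have h1 := h L σ hσ (af W X Y) u0 ((F4_af c W X Y hX0 hY0).1 hs)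
    (fun hE => g1 _ (Or.inl ⟨_, hE, rfl⟩) (X 0) (smul_one hX0))
    (fun hE => g2 _ (Or.inl ⟨_, hE, rfl⟩) (Y 0) (smul_one hY0))
    (fun hE => (g3 _ ⟨_, hE, rfl⟩ (X 0) (Y 0)).elim (fun g => g (smul_one hX0))
      (fun g => g (smul_one hY0)))
  have h2 := (ph_iff f (af W' X' Y')).2
    (fun k => h1 _ (hk k) _ ((F4_af c W' X' Y' hX' hY').1 hs')) (a * X' 0) (b * Y' 0)
  rwa [← pt_af a b W' X' Y' hX' hY'] at h2

lemma ev1 (g : MvPolynomial (Fin 2) K) (b t : K) :
    Polynomial.eval t (aeval ![Polynomial.C b, Polynomial.C b * Polynomial.X] g) =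
      eval ![b, b * t] g := by
  induction g using MvPolynomial.induction_on with
  | C r => simp
  | add p q hp hq => simp_all
  | mul_X p i hp => fin_cases i <;> simp_all

lemma ev2 (g : MvPolynomial (Fin 2) K) (B y : K) :
    Polynomial.eval B (aeval ![Polynomial.X, Polynomial.C y] g) = eval ![B, y] g := by
  induction g using MvPolynomial.induction_on with
  | C r => simp
  | add p q hp hq => simp_all
  | mul_X p i hp => fin_cases i <;> simp_all

/-- Polynomials in two variables which vanish on infinitely many lines. -/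
lemma zero_lines (g : MvPolynomial (Fin 2) K) (S : Set K) (hS : S.Infinite)
    (h : ∀ t ∈ S, ∀ b : K, eval (b • ![1, t]) g = 0) (Y : Fin 2 → K) : eval Y g = 0 := by
  have h1 : ∀ b t : K, eval ![b, b * t] g = 0 := by
    intro b t
    have hq : (aeval ![Polynomial.C b, Polynomial.C b * Polynomial.X] g : Polynomial K) = 0 := by
      refine Polynomial.eq_zero_of_infinite_isRoot _ (hS.mono fun t ht => ?_)
      have := h t ht b
      have e : (b • ![1, t] : Fin 2 → K) = ![b, b * t] := by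
        funext i
        fin_cases i <;> simp
      rw [e] at this
      exact (ev1 g b t).trans this
    rw [← ev1, hq]
    simp
  have h2 : ∀ Y : Fin 2 → K, Y 0 ≠ 0 → eval Y g = 0 := by
    intro Y hY
    have := h1 (Y 0) (Y 1 / Y 0)
    have e : (![Y 0, Y 0 * (Y 1 / Y 0)] : Fin 2 → K) = Y := by
      funext i
      fin_cases i
      · rfl
      · simp
        field_simp
    rwa [e] at this
  by_cases hY : Y 0 = 0
  · have e2 : ∀ B : K, Polynomial.eval B (aeval ![Polynomial.X, Polynomial.C (Y 1)] g) =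
        eval ![B, Y 1] g := fun B => ev2 g B (Y 1)
    have hq : (aeval ![Polynomial.X, Polynomial.C (Y 1)] g : Polynomial K) = 0 := by
      refine Polynomial.eq_zero_of_infinite_isRoot _ ((Set.finite_singleton (0 : K)).infinite_compl.mono
        fun B hB => ?_)
      have := h2 ![B, Y 1] (by simpa using hB)
      exact (e2 B).trans this
    have h3 := e2 0
    rw [hq] at h3
    have e : (![0, Y 1] : Fin 2 → K) = Y := by
      funext i
      fin_cases i
      · simp [hY]
      · rfl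
    rw [e] at h3
    rw [← h3]
    simp
  · exact h2 Y hY

/-- The polynomial on the cone over the second factor. -/
lemma zero_left (f : MvPolynomial (Option (Fin 2 ⊕ Fin 2)) K) (S : Set K) (hS : S.Infinite)
    (h : ∀ t ∈ S, ∀ b : K, ∃ (W : K) (X : Fin 2 → K), eval (pt 0 b W X ![1, t]) f = 0)
    (X Y : Fin 2 → K) (W : K) : eval (pt 0 1 W X Y) f = 0 := by
  have key : ∀ (b W : K) (X Y : Fin 2 → K), eval (pt 0 b W X Y) f = eval (b • Y)
      (aeval (fun o => o.elim (0 : MvPolynomial (Fin 2) K) (Sum.elim (fun _ => 0) fun j => MvPolynomial.X j)) f) := by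
    intro b W X Y
    clear h
    induction f using MvPolynomial.induction_on with
    | C r => simp
    | add p q hp hq => simp_all
    | mul_X p o hp =>
      rcases o with _ | i | j
      · simp [pt]
      · simp [pt]
      · simp_all [pt]
  rw [key]
  refine zero_lines _ S hS (fun t ht b => ?_) _
  obtain ⟨W', X', h'⟩ := h t ht b
  rw [key] at h'
  exact h'

lemma zero_right (f : MvPolynomial (Option (Fin 2 ⊕ Fin 2)) K) (S : Set K) (hS : S.Infinite)
    (h : ∀ s ∈ S, ∀ a : K, ∃ (W : K) (Y : Fin 2 → K), eval (pt a 0 W ![1, s] Y) f = 0)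
    (X Y : Fin 2 → K) (W : K) : eval (pt 1 0 W X Y) f = 0 := by
  have key : ∀ (a W : K) (X Y : Fin 2 → K), eval (pt a 0 W X Y) f = eval (a • X)
      (aeval (fun o => o.elim (0 : MvPolynomial (Fin 2) K) (Sum.elim (fun i => MvPolynomial.X i) fun _ => 0)) f) := by
    intro a W X Y
    clear h
    induction f using MvPolynomial.induction_on with
    | C r => simp
    | add p q hp hq => simp_all
    | mul_X p o hp =>
      rcases o with _ | i | j
      · simp [pt]
      · simp_all [pt]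
      · simp [pt]
  rw [key]
  refine zero_lines _ S hS (fun t ht b => ?_) _
  obtain ⟨W', X', h'⟩ := h t ht b
  rw [key] at h'
  exact h'

lemma vec_inj {s t : K} (h : (![1, s] : Fin 2 → K) = ![1, t]) : s = t := by
  have := congrFun h 1
  simpa using this

end van

/-! ### The theorem -/

/-- MZP: from the affine charts to the projective surface. -/
theorem mzp (h : S_MZA) : S_MZP := by
  intro K _ _ c hc
  obtain ⟨E00, F00, T00, hE00, hF00, hT00, h00⟩ := h K c hc
  obtain ⟨E10, F10, T10, hE10, hF10, hT10, h10⟩ := h K (op1 c) (smooth_op1 hc)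
  obtain ⟨E01, F01, T01, hE01, hF01, hT01, h01⟩ := h K (op2 c) (smooth_op2 hc)
  obtain ⟨E11, F11, T11, hE11, hF11, hT11, h11⟩ := h K (op2 (op1 c)) (smooth_op2 (smooth_op1 hc))
  have v00 := van00 (fun L _ _ σ hσ => (h00 L σ hσ).1)
  have v10 := van_op1 (van00 (fun L _ _ σ hσ => (h10 L σ hσ).1))
  have v01 := van_op2 (van00 (fun L _ _ σ hσ => (h01 L σ hσ).1))
  have v11 := van_op1 (van_op2 (van00 (fun L _ _ σ hσ => (h11 L σ hσ).1)))
  -- the first coordinates of the points
  let S1 : Set K := {s | ∃ (W : K) (Y : Fin 2 → K), Y ≠ 0 ∧ W ^ 2 = F4 c ![1, s] Y}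
  let S2 : Set K := {t | ∃ (W : K) (X : Fin 2 → K), X ≠ 0 ∧ W ^ 2 = F4 c X ![1, t]}
  let V : Set K → Set (Fin 2 → K) := fun S => {e | S.Finite ∧ ∃ s ∈ S, e = ![1, s]}
  have hV : ∀ S : Set K, (V S).Finite := by
    intro S
    by_cases hS : S.Finite
    · refine (hS.image (fun s => ![1, s])).subset ?_
      rintro e ⟨_, s, hs, rfl⟩
      exact ⟨s, hs, rfl⟩
    · refine Set.finite_empty.subset ?_
      rintro e ⟨h1, _⟩
      exact absurd h1 hS
  let A1 : Set (Fin 2 → K) := (fun s => ![1, s]) '' E00 ∪ {![0, 1]}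
  let A2 : Set (Fin 2 → K) := rv '' ((fun s => ![1, s]) '' E10 ∪ {![0, 1]})
  let A3 : Set (Fin 2 → K) := (fun s => ![1, s]) '' E01 ∪ {![0, 1]}
  let A4 : Set (Fin 2 → K) := rv '' ((fun s => ![1, s]) '' E11 ∪ {![0, 1]})
  let B1 : Set (Fin 2 → K) := (fun s => ![1, s]) '' F00 ∪ {![0, 1]}
  let B2 : Set (Fin 2 → K) := (fun s => ![1, s]) '' F10 ∪ {![0, 1]}
  let B3 : Set (Fin 2 → K) := rv '' ((fun s => ![1, s]) '' F01 ∪ {![0, 1]})
  let B4 : Set (Fin 2 → K) := rv '' ((fun s => ![1, s]) '' F11 ∪ {![0, 1]})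
  let C1 : Set ((Fin 2 → K) × (Fin 2 → K)) := (fun z => (![1, z.1], ![1, z.2])) '' T00
  let C2 : Set ((Fin 2 → K) × (Fin 2 → K)) :=
    (fun e => (rv e.1, e.2)) '' ((fun z => (![1, z.1], ![1, z.2])) '' T10)
  let C3 : Set ((Fin 2 → K) × (Fin 2 → K)) :=
    (fun e => (e.1, rv e.2)) '' ((fun z => (![1, z.1], ![1, z.2])) '' T01)
  let C4 : Set ((Fin 2 → K) × (Fin 2 → K)) :=
    (fun e => (rv e.1, e.2)) '' ((fun e => (e.1, rv e.2)) ''
      ((fun z => (![1, z.1], ![1, z.2])) '' T11))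
  let A : Set (Fin 2 → K) := A1 ∪ A2 ∪ A3 ∪ A4 ∪ V S1
  let B : Set (Fin 2 → K) := B1 ∪ B2 ∪ B3 ∪ B4 ∪ V S2
  let C : Set ((Fin 2 → K) × (Fin 2 → K)) := C1 ∪ C2 ∪ C3 ∪ C4
  have fA1 : A1.Finite := (hE00.image _).union (Set.finite_singleton _)
  have fA2 : A2.Finite := ((hE10.image _).union (Set.finite_singleton _)).image _
  have fA3 : A3.Finite := (hE01.image _).union (Set.finite_singleton _)
  have fA4 : A4.Finite := ((hE11.image _).union (Set.finite_singleton _)).image _
  have fB1 : B1.Finite := (hF00.image _).union (Set.finite_singleton _)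
  have fB2 : B2.Finite := (hF10.image _).union (Set.finite_singleton _)
  have fB3 : B3.Finite := ((hF01.image _).union (Set.finite_singleton _)).image _
  have fB4 : B4.Finite := ((hF11.image _).union (Set.finite_singleton _)).image _
  have fC1 : C1.Finite := hT00.image _
  have fC2 : C2.Finite := (hT10.image _).image _
  have fC3 : C3.Finite := (hT01.image _).image _
  have fC4 : C4.Finite := ((hT11.image _).image _).image _
  have w00 : VAN c 0 0 A B C := van_mono v00
    (fun e he => Or.inl (Or.inl (Or.inl (Or.inl he))))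
    (fun e he => Or.inl (Or.inl (Or.inl (Or.inl he)))) (fun e he => Or.inl (Or.inl (Or.inl he)))
  have w10 : VAN c 1 0 A B C := van_mono v10
    (fun e he => Or.inl (Or.inl (Or.inl (Or.inr he))))
    (fun e he => Or.inl (Or.inl (Or.inl (Or.inr he)))) (fun e he => Or.inl (Or.inl (Or.inr he)))
  have w01 : VAN c 0 1 A B C := van_mono v01
    (fun e he => Or.inl (Or.inl (Or.inr he)))
    (fun e he => Or.inl (Or.inl (Or.inr he))) (fun e he => Or.inl (Or.inr he))
  have w11 : VAN c 1 1 A B C := van_mono v11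
    (fun e he => Or.inl (Or.inr he)) (fun e he => Or.inl (Or.inr he)) (fun e he => Or.inr he)
  refine ⟨A, B, C, (((fA1.union fA2).union fA3).union fA4).union (hV S1),
    (((fB1.union fB2).union fB3).union fB4).union (hV S2),
    ((fC1.union fC2).union fC3).union fC4, fun L _ _ σ hσ => ⟨?_, ?_, ?_⟩⟩
  · intro W X Y hX hY hW hs g1 g2 g3 f hf
    have all : ∀ (W' : K) (X' Y' : Fin 2 → K), X' ≠ 0 → Y' ≠ 0 → W' ^ 2 = F4 c X' Y' →
        ∀ a b : K, eval (pt a b W' X' Y') f = 0 := by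
      intro W' X' Y' hX' hY' hs'
      rcases ex_ne hX' with h1 | h1 <;> rcases ex_ne hY' with h2 | h2
      · exact w00 L σ hσ W X Y hX hY hW hs g1 g2 g3 f hf W' X' Y' h1 h2 hs'
      · exact w01 L σ hσ W X Y hX hY hW hs g1 g2 g3 f hf W' X' Y' h1 h2 hs'
      · exact w10 L σ hσ W X Y hX hY hW hs g1 g2 g3 f hf W' X' Y' h1 h2 hs'
      · exact w11 L σ hσ W X Y hX hY hW hs g1 g2 g3 f hf W' X' Y' h1 h2 hs'
    have hX0 : X 0 ≠ 0 := first_ne (g1 _ (Or.inl (Or.inl (Or.inl (Or.inl (Or.inr rfl))))))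
    have hY0 : Y 0 ≠ 0 := first_ne (g2 _ (Or.inl (Or.inl (Or.inl (Or.inl (Or.inr rfl))))))
    have i1 : S1.Infinite := by
      intro hS
      have hm : X 1 / X 0 ∈ S1 := by
        refine ⟨W / X 0 ^ 2, Y, hY, ?_⟩
        have : F4 c X Y = X 0 ^ 4 * F4 c ![1, X 1 / X 0] Y := by
          have h1 := F4_smul c (X 0) 1 ![1, X 1 / X 0] Y
          rw [← smul_one hX0, MulAction.one_smul] at h1
          rw [h1]
          ring
        rw [div_pow, hs, this]
        field_simp
      exact g1 ![1, X 1 / X 0] (Or.inr ⟨hS, _, hm, rfl⟩) (X 0) (smul_one hX0)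
    have i2 : S2.Infinite := by
      intro hS
      have hm : Y 1 / Y 0 ∈ S2 := by
        refine ⟨W / Y 0 ^ 2, X, hX, ?_⟩
        have : F4 c X Y = Y 0 ^ 4 * F4 c X ![1, Y 1 / Y 0] := by
          have h1 := F4_smul c 1 (Y 0) X ![1, Y 1 / Y 0]
          rw [← smul_one hY0, MulAction.one_smul] at h1
          rw [h1]
          ring
        rw [div_pow, hs, this]
        field_simp
      exact g2 ![1, Y 1 / Y 0] (Or.inr ⟨hS, _, hm, rfl⟩) (Y 0) (smul_one hY0)
    intro W' X' Y' hs'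
    have e1 : (fun o : Option (Fin 2 ⊕ Fin 2) => o.elim W' (Sum.elim X' Y')) = pt 1 1 W' X' Y' := by
      funext o
      rcases o with _ | i | j <;> simp [pt]
    rw [e1]
    by_cases hX' : X' = 0
    · subst hX'
      have hW' : W' = 0 := by
        have h1 := F4_smul c 0 1 (0 : Fin 2 → K) Y'
        rw [zero_smul, MulAction.one_smul] at h1
        rw [h1] at hs'
        simpa using hs'
      subst hW'
      have := zero_left f S2 i2 (fun t ht b => ?_) (0 : Fin 2 → K) Y' 0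
      · have e2 : pt (1 : K) 1 0 0 Y' = pt 0 1 0 0 Y' := by
          funext o
          rcases o with _ | i | j <;> simp [pt]
        rw [e2]
        exact this
      · obtain ⟨W₁, X₁, h1, h2⟩ := ht
        exact ⟨W₁, X₁, all W₁ X₁ ![1, t] h1 (vec_ne t) h2 0 b⟩
    · by_cases hY' : Y' = 0
      · subst hY'
        have hW' : W' = 0 := by
          have h1 := F4_smul c 1 0 X' (0 : Fin 2 → K)
          rw [zero_smul, MulAction.one_smul] at h1
          rw [h1] at hs'
          simpa using hs'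
        subst hW'
        have := zero_right f S1 i1 (fun s hs a => ?_) X' (0 : Fin 2 → K) 0
        · have e2 : pt (1 : K) 1 0 X' 0 = pt 1 0 0 X' 0 := by
            funext o
            rcases o with _ | i | j <;> simp [pt]
          rw [e2]
          exact this
        · obtain ⟨W₁, Y₁, h1, h2⟩ := hs
          exact ⟨W₁, Y₁, all W₁ ![1, s] Y₁ (vec_ne s) h1 h2 a 0⟩
      · exact all W' X' Y' hX' hY' hs' 1 1
  · refine Gall σ c (fun w => w ≠ 0) ?_ ?_ ?_ ?_
    · exact G00 σ c _ (fun w a ha hw => div_ne_zero hw ha) (h00 L σ hσ).2.1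
    · exact G00 σ (op1 c) _ (fun w a ha hw => div_ne_zero hw ha) (h10 L σ hσ).2.1
    · exact G00 σ (op2 c) _ (fun w a ha hw => div_ne_zero hw ha) (h01 L σ hσ).2.1
    · exact G00 σ (op2 (op1 c)) _ (fun w a ha hw => div_ne_zero hw ha) (h11 L σ hσ).2.1
  · intro hB
    have fb : FB c := hB
    have tr : ∀ c' : Fin 5 → Fin 5 → K,
        {J | ∃ x : Fin 3 → L, x 0 ^ 2 = F4 (fun i j => σ (c' i j)) ![1, x 1] ![1, x 2] ∧
          J = locA σ c' x}.Finite → (G σ c' (fun _ => True) 0 0).Finite := by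
      intro c' hf
      refine G00 σ c' _ (fun w a ha hw => trivial) (hf.subset ?_)
      rintro J ⟨x, _, h1, h2⟩
      exact ⟨x, h1, h2⟩
    refine (Gall σ c (fun _ => True) ?_ ?_ ?_ ?_).subset ?_
    · exact tr c ((h00 L σ hσ).2.2 (fb_fin fb))
    · exact tr (op1 c) ((h10 L σ hσ).2.2 (fb_fin (fb_op1 fb)))
    · exact tr (op2 c) ((h01 L σ hσ).2.2 (fb_fin (fb_op2 fb)))
    · exact tr (op2 (op1 c)) ((h11 L σ hσ).2.2 (fb_fin (fb_op2 (fb_op1 fb))))
    · rintro J ⟨w, x, y, hx, hy, hs, hJ⟩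
      exact ⟨w, x, y, trivial, hx, hy, hs, hJ⟩

end Pool.Agent.Q299.TT.MZP
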